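import Mathlib

/-!
# Square roots of `X^[*] X` with the right kernel need not come from `H`-selfadjoint ones

A real `4 × 4` example (valid over `ℝ` and over `ℂ`): `X^[*] X = M ⊕ M` with
`M = [[-1, 1], [0, -1]]` has a square root, but no `H`-selfadjoint one.
-/

namespace Pool.Agent.Results.MP_154e02_al.NoSelfadjointRoot

open Matrix

/-- The `H`-adjoint `X^[*] = H⁻¹ X^* H`. -/
noncomputable def hadj {𝕜 : Type} [RCLike 𝕜] {n : ℕ} (H X : Matrix (Fin n) (Fin n) 𝕜) :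
    Matrix (Fin n) (Fin n) 𝕜 := H⁻¹ * Xᴴ * H

/-- The question Q1 over the field `𝕜`. -/
def Question (𝕜 : Type) [RCLike 𝕜] : Prop :=
  ∀ (n : ℕ) (H X Y : Matrix (Fin n) (Fin n) 𝕜), 1 ≤ n → IsUnit H → H.IsHermitian →
    Y * Y = hadj H X * X → LinearMap.ker (mulVecLin Y) = LinearMap.ker (mulVecLin X) →
    ∃ A : Matrix (Fin n) (Fin n) 𝕜, hadj H A = A ∧ A * A = hadj H X * X ∧
      LinearMap.ker (mulVecLin A) = LinearMap.ker (mulVecLin X)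

variable (𝕜 : Type) [RCLike 𝕜]

/-- The form. -/
def Hm : Matrix (Fin 4) (Fin 4) 𝕜 := !![0, 1, 0, 0; 1, 0, 0, 0; 0, 0, 0, 1; 0, 0, 1, 0]

/-- The matrix `X`. -/
noncomputable def Xm : Matrix (Fin 4) (Fin 4) 𝕜 :=
  !![1, -(1 / 2), 0, 0; 0, -1, 0, 0; 0, 0, 1, -(1 / 2); 0, 0, 0, -1]

/-- The matrix `Y`. -/
def Ym : Matrix (Fin 4) (Fin 4) 𝕜 := !![0, 0, -1, 1; 0, 0, 0, -1; 1, 0, 0, 0; 0, 1, 0, 0]

/-- `X^[*] X`. -/
def Mm : Matrix (Fin 4) (Fin 4) 𝕜 := !![-1, 1, 0, 0; 0, -1, 0, 0; 0, 0, -1, 1; 0, 0, 0, -1]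

theorem Hm_sq : Hm 𝕜 * Hm 𝕜 = 1 := by
  ext i j
  fin_cases i <;> fin_cases j <;> simp [Hm, Matrix.mul_apply, Fin.sum_univ_four]

theorem Hm_inv : (Hm 𝕜)⁻¹ = Hm 𝕜 := Matrix.inv_eq_right_inv (Hm_sq 𝕜)

theorem Hm_herm : (Hm 𝕜).IsHermitian := by
  ext i j
  fin_cases i <;> fin_cases j <;> simp [Hm]

theorem Ym_sq : Ym 𝕜 * Ym 𝕜 = Mm 𝕜 := by
  ext i j
  fin_cases i <;> fin_cases j <;> simp [Ym, Mm, Matrix.mul_apply, Fin.sum_univ_four]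

theorem XT : (Xm 𝕜)ᴴ =
    !![1, 0, 0, 0; -(1 / 2), -1, 0, 0; 0, 0, 1, 0; 0, 0, -(1 / 2), -1] := by
  ext i j
  fin_cases i <;> fin_cases j <;> simp [Xm]

theorem XX : hadj (Hm 𝕜) (Xm 𝕜) * Xm 𝕜 = Mm 𝕜 := by
  rw [hadj, Hm_inv, XT]
  ext i j
  fin_cases i <;> fin_cases j <;>
    simp [Hm, Xm, Mm, Matrix.mul_apply, Fin.sum_univ_four] <;> norm_num

theorem X_inj : LinearMap.ker (mulVecLin (Xm 𝕜)) = ⊥ := by
  rw [LinearMap.ker_eq_bot']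
  intro v hv
  have h0 := congrFun hv 0
  have h1 := congrFun hv 1
  have h2 := congrFun hv 2
  have h3 := congrFun hv 3
  simp [Xm, mulVecLin_apply, mulVec, dotProduct, Fin.sum_univ_four] at h0 h1 h2 h3
  ext i
  fin_cases i
  · simpa [h1] using h0
  · simpa using h1
  · simpa [h3] using h2
  · simpa using h3

theorem Y_inj : LinearMap.ker (mulVecLin (Ym 𝕜)) = ⊥ := by
  rw [LinearMap.ker_eq_bot']
  intro v hv
  have h0 := congrFun hv 0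
  have h1 := congrFun hv 1
  have h2 := congrFun hv 2
  have h3 := congrFun hv 3
  simp [Ym, mulVecLin_apply, mulVec, dotProduct, Fin.sum_univ_four] at h0 h1 h2 h3
  ext i
  fin_cases i
  · simpa using h2
  · simpa using h3
  · simpa [h1] using h0
  · simpa using h1

/-- There is no `H`-selfadjoint square root. -/
theorem no_root (A : Matrix (Fin 4) (Fin 4) 𝕜) (hA : hadj (Hm 𝕜) A = A) : A * A ≠ Mm 𝕜 := by
  intro hAA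
  have h1 : Aᴴ * Hm 𝕜 = Hm 𝕜 * A := by
    rw [hadj, Hm_inv] at hA
    calc Aᴴ * Hm 𝕜 = (Hm 𝕜 * Hm 𝕜) * Aᴴ * Hm 𝕜 := by rw [Hm_sq, Matrix.one_mul]
      _ = Hm 𝕜 * (Hm 𝕜 * Aᴴ * Hm 𝕜) := by simp only [Matrix.mul_assoc]
      _ = Hm 𝕜 * A := by rw [hA]
  have h2 : A * Mm 𝕜 = Mm 𝕜 * A := by rw [← hAA, Matrix.mul_assoc]
  have h3 : Aᴴ * (Hm 𝕜 * (Mm 𝕜 + 1)) * A = Hm 𝕜 * (Mm 𝕜 + 1) * Mm 𝕜 := by
    calc Aᴴ * (Hm 𝕜 * (Mm 𝕜 + 1)) * A = (Aᴴ * Hm 𝕜) * ((Mm 𝕜 + 1) * A) := by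
          simp only [Matrix.mul_assoc]
      _ = (Hm 𝕜 * A) * ((Mm 𝕜 + 1) * A) := by rw [h1]
      _ = Hm 𝕜 * ((A * (Mm 𝕜 + 1)) * A) := by simp only [Matrix.mul_assoc]
      _ = Hm 𝕜 * (((Mm 𝕜 + 1) * A) * A) := by
          rw [Matrix.mul_add, Matrix.add_mul (Mm 𝕜) 1 A, h2, Matrix.mul_one, Matrix.one_mul]
      _ = Hm 𝕜 * (Mm 𝕜 + 1) * Mm 𝕜 := by rw [← hAA]; simp only [Matrix.mul_assoc]
  have h5 : Hm 𝕜 * (Mm 𝕜 + 1) = diagonal ![0, 1, 0, 1] := by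
    ext i j
    fin_cases i <;> fin_cases j <;> simp [Hm, Mm, Matrix.mul_apply, Fin.sum_univ_four]
  rw [h5] at h3
  have h4 := congrFun (congrFun h3 1) 1
  rw [Matrix.mul_assoc, Matrix.mul_apply, Matrix.diagonal_mul] at h4
  simp [Mm, Matrix.diagonal_mul, Fin.sum_univ_four] at h4
  have h6 := congrArg RCLike.re h4
  simp [RCLike.mul_re] at h6
  nlinarith [sq_nonneg (RCLike.re (A 1 1)), sq_nonneg (RCLike.im (A 1 1)),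
    sq_nonneg (RCLike.re (A 3 1)), sq_nonneg (RCLike.im (A 3 1))]

/-- **Negative answer to Q1, over `ℝ` and over `ℂ`.** -/
theorem result :
    (∀ (𝕜 : Type) [RCLike 𝕜], ∃ H X Y : Matrix (Fin 4) (Fin 4) 𝕜,
      IsUnit H ∧ H.IsHermitian ∧ IsUnit X ∧ IsUnit Y ∧ Y * Y = hadj H X * X ∧
      LinearMap.ker (mulVecLin Y) = LinearMap.ker (mulVecLin X) ∧
      ∀ A : Matrix (Fin 4) (Fin 4) 𝕜, hadj H A = A → A * A ≠ hadj H X * X) ∧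
    ¬ Question ℝ ∧ ¬ Question ℂ := by
  have main : ∀ (𝕜 : Type) [RCLike 𝕜], ∃ H X Y : Matrix (Fin 4) (Fin 4) 𝕜,
      IsUnit H ∧ H.IsHermitian ∧ IsUnit X ∧ IsUnit Y ∧ Y * Y = hadj H X * X ∧
      LinearMap.ker (mulVecLin Y) = LinearMap.ker (mulVecLin X) ∧
      ∀ A : Matrix (Fin 4) (Fin 4) 𝕜, hadj H A = A → A * A ≠ hadj H X * X := by
    intro 𝕜 _
    refine ⟨Hm 𝕜, Xm 𝕜, Ym 𝕜, ?_, Hm_herm 𝕜, ?_, ?_, ?_, ?_, ?_⟩
    · exact IsUnit.of_mul_eq_one _ (Hm_sq 𝕜)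
    · exact mulVec_injective_iff_isUnit.mp (LinearMap.ker_eq_bot.mp (X_inj 𝕜))
    · exact mulVec_injective_iff_isUnit.mp (LinearMap.ker_eq_bot.mp (Y_inj 𝕜))
    · rw [Ym_sq, XX]
    · rw [X_inj, Y_inj]
    · intro A hA
      rw [XX]
      exact no_root 𝕜 A hA
  refine ⟨main, ?_, ?_⟩
  · intro hQ
    obtain ⟨H, X, Y, h1, h2, -, -, h3, h4, h5⟩ := main ℝ
    obtain ⟨A, hA1, hA2, -⟩ := hQ 4 H X Y (by norm_num) h1 h2 h3 h4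
    exact h5 A hA1 hA2
  · intro hQ
    obtain ⟨H, X, Y, h1, h2, -, -, h3, h4, h5⟩ := main ℂ
    obtain ⟨A, hA1, hA2, -⟩ := hQ 4 H X Y (by norm_num) h1 h2 h3 h4
    exact h5 A hA1 hA2

end Pool.Agent.Results.MP_154e02_al.NoSelfadjointRoot
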